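import Pool.Agent.Lib.MP_e6972d_co.Euler
import Pool.Agent.Lib.MP_e6972d_co.Final
import Pool.Agent.Lib.MP_e6972d_co.Disconn
import Pool.Agent.Lib.MP_e6972d_co.MainInd
import Pool.Agent.Lib.MP_e6972d_co.Basic
import Pool.Agent.Lib.MP_e6972d_co.DelPlanar
import Pool.Agent.Lib.MP_e6972d_co.ChordPlanar
import Pool.Agent.Lib.MP_e6972d_co.ChordT
import Pool.Agent.Lib.MP_e6972d_co.MergePlanar
import Pool.Agent.Lib.MP_e6972d_co.FoldRed
import Pool.Agent.Lib.MP_e6972d_co.FoldLift
import Pool.Agent.Lib.MP_e6972d_co.TwoRed
import Pool.Agent.Lib.MP_e6972d_co.TwoLift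
import Pool.Agent.Lib.MP_e6972d_co.Stars
import Pool.Agent.Lib.MP_e6972d_co.Cross
import Pool.Agent.Lib.MP_e6972d_co.MaxQuad
import Pool.Agent.Lib.MP_e6972d_co.Nest
import Pool.Agent.Lib.MP_e6972d_co.QuadStep
import Pool.Agent.Lib.MP_e6972d_co.Realise
import Pool.Agent.Lib.MP_e6972d_co.FromGraph

/-!
# Every planar bipartite graph is pandichotomous in the plane
-/

namespace Pool.Agent.Results.MP_e6972d_co.PlanarBipartite

open PanD

/-- Class (c) of Q1: for every finite planar bipartite graph and every set `S` of edges (the short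
ones) there are distinct points of the plane and a threshold such that exactly the edges of `S`
have length at most the threshold. -/
theorem result (V : Type) [Fintype V] (G : SimpleGraph V) (hG : G.Colorable 2)
    (hP : PlanarGraph G) : Pandichotomous G :=
  Final
    (Disconn (MainInd (ChordPlanar Basic) ChordT (FoldRed DelPlanar MergePlanar) FoldLift
      (TwoRed DelPlanar) TwoLift Stars (MaxQuad Basic Cross) (QuadStep Nest)))
    Realise FromGraph V G hG (isPlanar_of_euler G hP)

end Pool.Agent.Results.MP_e6972d_co.PlanarBipartite
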